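import Pool.Agent.Y12.HCK.Main

/-!
Every graph `F` with `f` vertices is of the form `H - C` for a graph `H` and a set `C` of only
`f + 2` vertices, such that for all vectors `K` of positive weights the list `F`-colouring problem
is reducible in polynomial time to the `(H, C, K)`-colouring problem. So if the list `F`-colouring
problem is NP-complete then so are the `(H, C, K)`-colouring problems for all positive `K`, for
example for `K = (1, ..., 1)`, where every vertex of `C` has to be used exactly once.

The extension: there are vertices `a i` for `i < f`, and two more vertices `z` and `c`. The vertex
`a i` is adjacent to all vertices of `F` except the one with number `i`, and to the `a j` with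
`f ≤ i + j + 1` (so some of the `a i` have loops). The vertex `z` is adjacent to all vertices of `F`
and to `c`, and `c` has no other neighbour.

For an instance `(G, L)` of the list colouring problem and positive weights one adds to `G` as many
clones of every vertex in `C` as its weight says, and for every vertex `v` of `F` more than `K z`
isolated vertices with list `{v}`; two clones are adjacent if the cloned vertices are adjacent, a
clone of `a i` is adjacent to all vertices whose list does not contain `i`, and a clone of `z` is
adjacent to all vertices with lists. A vertex with colour `c` has at most `K z` neighbours, since
these have the colour `z`. Hence no clone of `z` or of some `a i` has colour `c` (some of the clones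
of the `a i` have loops, and the other ones have many neighbours). All other vertices are adjacent
to the clones of `z`, so these have colour `z`, and then the vertices with lists have colours in
`F` or the colour `c`. So the clones of the `a i` are precisely the vertices with colours `a i`. As
the neighbourhoods of the `a i` among the `a j` increase with `i` and all weights are positive, a
clone of `a i` has a colour `a j` with `i ≤ j`, and counting shows `i = j`. This enforces the
lists.
-/

namespace Pool.Agent.Results.MP_58e31d_lc.PositiveWeights

open Pool.Agent.H685R2.Poly Pool.Agent.H685R2.Hck

/-- Every graph `F` with `f` vertices is of the form `H - C` for a graph `H` with `2 f + 2`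
vertices and a set `C` of `f + 2` vertices, such that for every vector `K` of positive weights the
list `F`-colouring problem is reducible in polynomial time to the `(H, C, K)`-colouring problem;
if the list `F`-colouring problem is NP-complete then so is the `(H, C, K)`-colouring problem. -/
theorem result (f : ℕ) (F : LGraph (Fin f)) :
    ∃ (H : LGraph (Fin (2 * f + 2))) (C : Fin (f + 2) ↪ Fin (2 * f + 2)),
      IsExtension H C F ∧
      ∀ K : Fin (f + 2) → ℕ, (∀ i, 1 ≤ K i) →
        Reduces (listProblem F) (weightedProblem H C K) ∧
        (NPComplete (listProblem F) → NPComplete (weightedProblem H C K)) := by
  have key : ∀ h : ℕ, f + (f + 2) = h →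
      ∃ (H : LGraph (Fin h)) (C : Fin (f + 2) ↪ Fin h), IsExtension H C F ∧
        ∀ K : Fin (f + 2) → ℕ, (∀ i, 1 ≤ K i) →
          Reduces (listProblem F) (weightedProblem H C K) ∧
          (NPComplete (listProblem F) → NPComplete (weightedProblem H C K)) := by
    rintro h rfl
    exact ⟨Pool.Agent.Y12.HCKG.HH f F, Pool.Agent.Y12.HCKG.CC f,
      Pool.Agent.Y12.HCKG.isExtension f F, fun K hK =>
        ⟨Pool.Agent.Y12.HCKG.list_reduces F K hK, fun h =>
          ⟨weighted_inNP _ _ _, h.2.of_reduces (Pool.Agent.Y12.HCKG.list_reduces F K hK)⟩⟩⟩
  exact key _ (by omega)

end Pool.Agent.Results.MP_58e31d_lc.PositiveWeights
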